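import Pool.Agent.H75.SQ.Basic

/-!
# Quantum statistical algorithms for satisfiability: the exponential moment (EXD)
-/

set_option autoImplicit false

open Finset Matrix Pool.Agent.H75.SQ

namespace Pool.Agent.H60.SQ.EXD

theorem pf_EXD (hTEN : T_TEN) (hCOV : T_COV) (hHER : T_HER) : T_EXD := by
  intro γ _ _ w hw m g V hV hg t ht
  have hne : Nonempty γ := by
    by_contra hcon
    rw [not_nonempty_iff] at hcon
    have := hw.2
    rw [Finset.univ_eq_empty, Finset.sum_empty] at this
    exact zero_ne_one this
  rcases hV.eq_or_lt with hV0 | hV0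
  · rw [← hV0]
    simp only [mul_zero, div_zero, neg_zero, Real.exp_zero]
    rw [← EF_const w hw m 1]
    exact EF_mono w hw.1 m _ _ fun F => ind_le_one _
  -- the sum of the squares of the differences
  have hsq : ∀ F : Fin m → γ, ∑ i, ∑ C', w C' * max 0 (g F - g (Function.update F i C')) ^ 2 ≤ V := by
    intro F
    have hmax : ∀ i : Fin m, ∃ C : γ, ∀ C' : γ, max 0 (g F - g (Function.update F i C')) ^ 2 ≤
        max 0 (g F - g (Function.update F i C)) ^ 2 := fun i =>
      Finite.exists_max fun C' => max 0 (g F - g (Function.update F i C')) ^ 2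
    choose C hC using hmax
    refine le_trans (Finset.sum_le_sum fun i _ => ?_) (hg F C)
    calc ∑ C', w C' * max 0 (g F - g (Function.update F i C')) ^ 2
        ≤ ∑ C', w C' * max 0 (g F - g (Function.update F i (C i))) ^ 2 :=
          Finset.sum_le_sum fun C' _ => mul_le_mul_of_nonneg_left (hC i C') (hw.1 C')
      _ = max 0 (g F - g (Function.update F i (C i))) ^ 2 := by
          rw [← Finset.sum_mul, hw.2, one_mul]
  have hp : Pw (fun F : Fin m → γ => ∏ j, w (F j)) :=
    ⟨fun F => prod_nonneg' w hw.1 m F, sum_prod w hw m⟩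
  have hent : ∀ l > 0, ∑ F : Fin m → γ, (∏ j, w (F j)) *
      (Real.exp (l * g F) * Real.log (Real.exp (l * g F))) -
      (∑ F : Fin m → γ, (∏ j, w (F j)) * Real.exp (l * g F)) *
        Real.log (∑ F : Fin m → γ, (∏ j, w (F j)) * Real.exp (l * g F)) ≤
      V * l ^ 2 * ∑ F : Fin m → γ, (∏ j, w (F j)) * Real.exp (l * g F) := by
    intro l hl
    have h1 := hTEN γ w hw m (fun F => Real.exp (l * g F)) fun F => Real.exp_pos _
    refine le_trans h1 ?_
    have h2 : ∀ i : Fin m, EF w m (fun F =>
        ∑ C, w C * (Real.exp (l * g (Function.update F i C)) *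
          Real.log (Real.exp (l * g (Function.update F i C)))) -
        (∑ C, w C * Real.exp (l * g (Function.update F i C))) *
          Real.log (∑ C, w C * Real.exp (l * g (Function.update F i C)))) ≤
        l ^ 2 * EF w m (fun F => ∑ C', w C' * max 0 (g F - g (Function.update F i C')) ^ 2 *
          Real.exp (l * g F)) := by
      intro i
      have h3 := EF_update w hw m i (fun F => ∑ C', w C' *
        max 0 (g F - g (Function.update F i C')) ^ 2 * Real.exp (l * g F))
      rw [h3, ← EF_mul]
      refine EF_mono w hw.1 m _ _ fun F => ?_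
      refine le_trans (hCOV γ w (fun C => g (Function.update F i C)) l hw hl.le) (le_of_eq ?_)
      congr 1
      refine Finset.sum_congr rfl fun C _ => ?_
      rw [Finset.mul_sum]
      refine Finset.sum_congr rfl fun C' _ => ?_
      rw [Function.update_idem]
      ring
    refine le_trans (Finset.sum_le_sum fun i _ => h2 i) ?_
    rw [← Finset.mul_sum, ← EF_sum]
    have h4 : EF w m (fun F => ∑ i, ∑ C', w C' * max 0 (g F - g (Function.update F i C')) ^ 2 *
          Real.exp (l * g F)) ≤ EF w m (fun F => V * Real.exp (l * g F)) := by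
      refine EF_mono w hw.1 m _ _ fun F => ?_
      have e : ∑ i, ∑ C', w C' * max 0 (g F - g (Function.update F i C')) ^ 2 *
          Real.exp (l * g F) = (∑ i, ∑ C', w C' *
            max 0 (g F - g (Function.update F i C')) ^ 2) * Real.exp (l * g F) := by
        rw [Finset.sum_mul]
        refine Finset.sum_congr rfl fun i _ => ?_
        rw [Finset.sum_mul]
      rw [e]
      exact mul_le_mul_of_nonneg_right (hsq F) (Real.exp_pos _).le
    rw [EF_mul] at h4
    have h5 : (0 : ℝ) ≤ l ^ 2 := by positivity
    calc l ^ 2 * EF w m (fun F => ∑ i, ∑ C', w C' *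
          max 0 (g F - g (Function.update F i C')) ^ 2 * Real.exp (l * g F))
        ≤ l ^ 2 * (V * EF w m (fun F => Real.exp (l * g F))) :=
          mul_le_mul_of_nonneg_left h4 h5
      _ = V * l ^ 2 * EF w m (fun F => Real.exp (l * g F)) := by ring
  have hH := hHER (Fin m → γ) (fun F => ∏ j, w (F j)) g V hp hV hent (t / (2 * V))
    (by positivity)
  set l : ℝ := t / (2 * V) with hl
  have hl0 : 0 < l := by positivity
  have hmar : ∀ F : Fin m → γ, ind (EF w m g + t < g F) ≤
      Real.exp (-(l * (EF w m g + t))) * Real.exp (l * g F) := by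
    intro F
    rw [← Real.exp_add]
    by_cases h : EF w m g + t < g F
    · rw [ind_true _ h]
      refine Real.one_le_exp ?_
      nlinarith
    · rw [ind_false _ h]
      exact (Real.exp_pos _).le
  calc EF w m (fun F => ind (EF w m g + t < g F))
      ≤ EF w m (fun F => Real.exp (-(l * (EF w m g + t))) * Real.exp (l * g F)) :=
        EF_mono w hw.1 m _ _ hmar
    _ = Real.exp (-(l * (EF w m g + t))) * EF w m (fun F => Real.exp (l * g F)) := EF_mul _ _ _ _
    _ ≤ Real.exp (-(l * (EF w m g + t))) * Real.exp (l * EF w m g + V * l ^ 2) :=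
        mul_le_mul_of_nonneg_left hH (Real.exp_pos _).le
    _ = Real.exp (-(t ^ 2 / (4 * V))) := by
        rw [← Real.exp_add]
        congr 1
        rw [hl]
        field_simp
        ring

end Pool.Agent.H60.SQ.EXD
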