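import Pool.Agent.H75.SQ.Basic

/-!
# Quantum statistical algorithms for satisfiability: norms (NRM)
-/

set_option autoImplicit false

open Finset Matrix Pool.Agent.H75.SQ

namespace Pool.Agent.H60.SQ.NRM

section

variable {γ : Type} [Fintype γ] [DecidableEq γ]

omit [Fintype γ] in
private lemma fs_sq {m : ℕ} (hm : 0 < m) (F : Fin m → γ) (x : Fin m × γ) :
    ‖fs F x‖ ^ 2 = if F x.1 = x.2 then 1 / (m : ℝ) else 0 := by
  have hm' : (0 : ℝ) < m := by exact_mod_cast hm
  unfold fs
  split_ifs with h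
  · rw [Complex.norm_real, Real.norm_eq_abs, sq_abs, div_pow, one_pow, Real.sq_sqrt hm'.le]
  · simp

private lemma fs_row {m : ℕ} (hm : 0 < m) (F : Fin m → γ) (j : Fin m) :
    ∑ C, ‖fs F (j, C)‖ ^ 2 = 1 / (m : ℝ) := by
  simp only [fs_sq hm]
  rw [Finset.sum_ite_eq]
  simp

private lemma fs_sum {m : ℕ} (hm : 0 < m) (F : Fin m → γ) : ∑ x, ‖fs F x‖ ^ 2 = 1 := by
  have hm' : (m : ℝ) ≠ 0 := by
    have : m ≠ 0 := hm.ne'
    exact_mod_cast this
  rw [Fintype.sum_prod_type]
  simp only [fs_row hm]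
  rw [Finset.sum_const, Finset.card_univ, Fintype.card_fin, nsmul_eq_mul]
  field_simp

omit [Fintype γ] in
private lemma fq_sq {m q : ℕ} (F : Fin m → γ) (s : Fin q → Fin m × γ) :
    ‖fq q F s‖ ^ 2 = ∏ i, ‖fs F (s i)‖ ^ 2 := by
  unfold fq
  rw [norm_prod, Finset.prod_pow]

private lemma fq_sum {m q : ℕ} (hm : 0 < m) (F : Fin m → γ) : ∑ s, ‖fq q F s‖ ^ 2 = 1 := by
  simp only [fq_sq]
  have h := Finset.prod_univ_sum (fun _ : Fin q => (Finset.univ : Finset (Fin m × γ)))
    (fun _ x => ‖fs F x‖ ^ 2)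
  rw [Fintype.piFinset_univ] at h
  rw [← h]
  simp [fs_sum hm]

private lemma desc_bound (m : ℕ) (hm : 0 < m) (q : ℕ) :
    (m : ℝ) ^ q * (1 - q * (q - 1) / (2 * m)) ≤ (m.descFactorial q : ℝ) := by
  have hm' : (0 : ℝ) < m := by exact_mod_cast hm
  induction q with
  | zero => simp
  | succ q ih =>
    rw [Nat.descFactorial_succ]
    rcases Nat.lt_or_ge m q with h | h
    · have h0 : m - q = 0 := by omega
      rw [h0, zero_mul, Nat.cast_zero]
      have h1 : (m : ℝ) + 1 ≤ q := by exact_mod_cast h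
      refine mul_nonpos_of_nonneg_of_nonpos (by positivity) ?_
      rw [sub_nonpos, le_div_iff₀ (by positivity)]
      push_cast
      nlinarith
    · have h1 : (q : ℝ) ≤ m := by exact_mod_cast h
      rw [Nat.cast_mul, Nat.cast_sub h]
      have h2 := mul_le_mul_of_nonneg_left ih (show (0 : ℝ) ≤ m - q by linarith)
      refine le_trans ?_ h2
      have h3 : ((m : ℝ) - q) * ((m : ℝ) ^ q * (1 - q * (q - 1) / (2 * m))) =
          (m : ℝ) ^ (q + 1) * (1 - q / m) * (1 - q * (q - 1) / (2 * m)) := by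
        rw [pow_succ]
        field_simp
      rw [h3, mul_assoc]
      refine mul_le_mul_of_nonneg_left ?_ (by positivity)
      push_cast
      have h4 : (0 : ℝ) ≤ q / m * (q * (q - 1) / (2 * m)) := by
        rcases Nat.eq_zero_or_pos q with h5 | h5
        · rw [h5]; simp
        · have : (1 : ℝ) ≤ q := by exact_mod_cast h5
          have h6 : (0 : ℝ) ≤ q * (q - 1) := by nlinarith
          positivity
      have h7 : ((q : ℝ) + 1) * (q + 1 - 1) / (2 * m) = q / m + q * (q - 1) / (2 * m) := by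
        field_simp
        ring
      rw [h7]
      nlinarith

private lemma inj_card (m q : ℕ) :
    ({j : Fin q → Fin m | Function.Injective j}.ncard) = m.descFactorial q := by
  rw [← Nat.card_coe_set_eq]
  have h : Nat.card {j : Fin q → Fin m // Function.Injective j} = Nat.card (Fin q ↪ Fin m) :=
    Nat.card_congr (Equiv.subtypeInjectiveEquivEmbedding _ _)
  have h2 : Nat.card (Fin q ↪ Fin m) = m.descFactorial q := by
    rw [Nat.card_eq_fintype_card, Fintype.card_embedding_eq, Fintype.card_fin, Fintype.card_fin]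
  rw [← h2, ← h]
  rfl

private lemma inj_bound (m q : ℕ) (hm : 0 < m) : (1 : ℝ) - q ^ 2 / (2 * m) ≤
    ({j : Fin q → Fin m | Function.Injective j}.ncard : ℝ) / m ^ q := by
  have hm' : (0 : ℝ) < m := by exact_mod_cast hm
  rw [inj_card, le_div_iff₀ (by positivity), mul_comm]
  refine le_trans ?_ (desc_bound m hm q)
  refine mul_le_mul_of_nonneg_left ?_ (by positivity)
  refine sub_le_sub_left ?_ _
  rw [div_le_div_iff_of_pos_right (by positivity)]
  have : (0 : ℝ) ≤ q := by positivity
  nlinarith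

private lemma rest_sum {m q : ℕ} (hm : 0 < m) (F : Fin m → γ) :
    ∑ s, ‖fq q F s - pj (fq q F) s‖ ^ 2 =
      1 - ({j : Fin q → Fin m | Function.Injective j}.ncard : ℝ) / m ^ q := by
  classical
  have hm' : (0 : ℝ) < m := by exact_mod_cast hm
  have h1 : ∀ s : Fin q → Fin m × γ, ‖fq q F s - pj (fq q F) s‖ ^ 2 =
      ‖fq q F s‖ ^ 2 - (if Function.Injective (fun i => (s i).1) then 1 else 0) *
        ∏ i, ‖fs F (s i)‖ ^ 2 := by
    intro s
    rw [← fq_sq]
    unfold pj
    split_ifs with h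
    · simp
    · simp
  simp only [h1]
  rw [Finset.sum_sub_distrib, fq_sum hm]
  congr 1
  rw [← (Equiv.arrowProdEquivProdArrow (Fin q) (fun _ => Fin m) (fun _ => γ)).symm.sum_comp,
    Fintype.sum_prod_type]
  have h2 : ∀ j : Fin q → Fin m, ∑ A : Fin q → γ,
      (if Function.Injective (fun i => (((Equiv.arrowProdEquivProdArrow (Fin q)
        (fun _ => Fin m) (fun _ => γ)).symm (j, A)) i).1) then (1 : ℝ) else 0) *
        ∏ i, ‖fs F (((Equiv.arrowProdEquivProdArrow (Fin q)
        (fun _ => Fin m) (fun _ => γ)).symm (j, A)) i)‖ ^ 2 =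
      (if Function.Injective j then 1 else 0) / (m : ℝ) ^ q := by
    intro j
    have h3 : ∀ A : Fin q → γ, (if Function.Injective (fun i => (((Equiv.arrowProdEquivProdArrow
        (Fin q) (fun _ => Fin m) (fun _ => γ)).symm (j, A)) i).1) then (1 : ℝ) else 0) *
        ∏ i, ‖fs F (((Equiv.arrowProdEquivProdArrow (Fin q)
        (fun _ => Fin m) (fun _ => γ)).symm (j, A)) i)‖ ^ 2 =
        (if Function.Injective j then (1 : ℝ) else 0) * ∏ i, ‖fs F (j i, A i)‖ ^ 2 := fun A => rfl
    simp only [h3]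
    rw [← Finset.mul_sum]
    have h4 := Finset.prod_univ_sum (fun _ : Fin q => (Finset.univ : Finset γ))
      (fun i C => ‖fs F (j i, C)‖ ^ 2)
    rw [Fintype.piFinset_univ] at h4
    rw [← h4]
    simp only [fs_row hm]
    rw [Finset.prod_const, Finset.card_univ, Fintype.card_fin, one_div, inv_pow, div_eq_mul_inv]
  rw [Finset.sum_congr rfl fun j _ => h2 j, ← Finset.sum_div]
  congr 1
  rw [Finset.sum_boole]
  congr 1
  rw [← Set.ncard_coe_finset]
  congr 1
  ext j
  simp

end

theorem pf_NRM : T_NRM := by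
  intro γ _ _ m q F w M hm hM
  have hm' : (0 : ℝ) < m := by exact_mod_cast hm
  refine ⟨?_, ?_, ?_, ?_, inj_bound m q hm, ?_⟩
  · unfold nm
    rw [fs_sum hm, Real.sqrt_one]
  · unfold nm
    rw [fq_sum hm, Real.sqrt_one]
  · unfold nm dl
    congr 1
    have h1 : ∀ x : Fin m × γ, ‖fs F x - uv w F x‖ ^ 2 = w x.2 ^ 2 / m := by
      intro x
      have h2 : fs F x - uv w F x = ((w x.2 / Real.sqrt m : ℝ) : ℂ) := by
        unfold fs uv
        split_ifs with h
        · push_cast
          ring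
        · push_cast
          ring
      rw [h2, Complex.norm_real, Real.norm_eq_abs, sq_abs, div_pow, Real.sq_sqrt hm'.le]
    simp only [h1]
    rw [Fintype.sum_prod_type]
    simp only
    rw [Finset.sum_const, Finset.card_univ, Fintype.card_fin, nsmul_eq_mul, ← Finset.sum_div]
    field_simp
  · refine (hM.2 _).trans ?_
    rw [fq_sum hm]
  · unfold nm
    rw [rest_sum hm]
    refine Real.sqrt_le_iff.mpr ⟨by positivity, ?_⟩
    rw [div_pow, Real.sq_sqrt (by positivity)]
    have := inj_bound m q hm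
    linarith

end Pool.Agent.H60.SQ.NRM
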